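import Mathlib

set_option autoImplicit false

namespace Pool.Agent.Results.MP_b6680e_pr.Q1
open Finset

variable {n m : ℕ}

/-- one round of growth of a vertex set along open edges (`ed e` = endpoints of edge `e`) -/
def grow (ed : Fin m → Fin n × Fin n) (ω : Fin m → Bool) (s : Finset (Fin n)) : Finset (Fin n) :=
  univ.filter (fun v => v ∈ s ∨ ∃ e, ω e = true ∧
    (((ed e).1 = v ∧ (ed e).2 ∈ s) ∨ ((ed e).2 = v ∧ (ed e).1 ∈ s)))

/-- the cluster of `v`: all vertices joined to `v` by an open path (`n` rounds suffice) -/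
def cluster (ed : Fin m → Fin n × Fin n) (ω : Fin m → Bool) (v : Fin n) : Finset (Fin n) :=
  (grow ed ω)^[n] {v}

/-- closed edges with both endpoints warm (`F` = frozen vertices); each opens at rate 1 -/
def active (ed : Fin m → Fin n × Fin n) (F : Finset (Fin n)) (ω : Fin m → Bool) :
    Finset (Fin m) :=
  univ.filter (fun e => ω e = false ∧ (ed e).1 ∉ F ∧ (ed e).2 ∉ F)

/-- clusters of warm vertices; each freezes at rate `α` -/
def warm (ed : Fin m → Fin n × Fin n) (F : Finset (Fin n)) (ω : Fin m → Bool) :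
    Finset (Finset (Fin n)) :=
  (univ \ F).image (cluster ed ω)

/-- probability, under the jump chain of PCF started from `(F, ω)`, that the final edge
configuration lies in `A`; once no edge is active the edge configuration never changes again.
The fuel bounds the number of jumps (each jump opens an edge or freezes a warm vertex). -/
def fin (ed : Fin m → Fin n × Fin n) (α : ℚ) (A : Finset (Fin m → Bool)) :
    ℕ → Finset (Fin n) → (Fin m → Bool) → ℚ
  | 0, _, ω => if ω ∈ A then 1 else 0
  | k + 1, F, ω =>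
    if active ed F ω = ∅ then (if ω ∈ A then 1 else 0) else
      (∑ e ∈ active ed F ω, fin ed α A k F (Function.update ω e true) +
        α * ∑ c ∈ warm ed F ω, fin ed α A k (F ∪ c) ω) /
      ((active ed F ω).card + α * (warm ed F ω).card)

/-- `μ_{G,α}(A)`: start with all vertices warm and all edges closed -/
def mu (ed : Fin m → Fin n × Fin n) (α : ℚ) (A : Finset (Fin m → Bool)) : ℚ :=
  fin ed α A (n + m) ∅ (fun _ => false)

def ed0 : Fin 5 → Fin 5 × Fin 5 := ![(0, 4), (0, 1), (1, 2), (2, 4), (1, 3)]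
def A0 : Finset (Fin 5 → Bool) := univ.filter (fun ω => ω 0 = true ∨ ω 3 = true)
def B0 : Finset (Fin 5 → Bool) := univ.filter (fun ω => ω 1 = true ∨ ω 2 = true ∨ ω 4 = true)

theorem result : ∃ (n m : ℕ) (ed : Fin m → Fin n × Fin n) (α : ℚ) (A B : Finset (Fin m → Bool)),
    (∀ e, (ed e).1 < (ed e).2) ∧ Function.Injective ed ∧ 0 < α ∧
    (∀ ω ω' : Fin m → Bool, ω ∈ A → ω ≤ ω' → ω' ∈ A) ∧
    (∀ ω ω' : Fin m → Bool, ω ∈ B → ω ≤ ω' → ω' ∈ B) ∧
    mu ed α (A ∩ B) < mu ed α A * mu ed α B := by
  refine ⟨5, 5, ed0, 1/20, A0, B0, by decide, by decide, by norm_num, ?_, ?_, ?_⟩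
  · intro ω ω' h hle
    simp only [A0, mem_filter, mem_univ, true_and] at h ⊢
    rcases h with h | h
    · exact Or.inl (Bool.le_iff_imp.1 (hle 0) h)
    · exact Or.inr (Bool.le_iff_imp.1 (hle 3) h)
  · intro ω ω' h hle
    simp only [B0, mem_filter, mem_univ, true_and] at h ⊢
    rcases h with h | h | h
    · exact Or.inl (Bool.le_iff_imp.1 (hle 1) h)
    · exact Or.inr (Or.inl (Bool.le_iff_imp.1 (hle 2) h))
    · exact Or.inr (Or.inr (Bool.le_iff_imp.1 (hle 4) h))
  · decide +kernel

end Pool.Agent.Results.MP_b6680e_pr.Q1
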